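import Mathlib
import Pool.Agent.Sib.Code
import Pool.Agent.Sib.Main

/-!
# Bi-embeddability classes with a given age

For every age `𝔄` in a finite relational language the following are equivalent: there are finitely
many bi-embeddability classes of countable structures with age `𝔄`; there is exactly one; `𝔄` is
cellular.
-/

namespace Pool.Agent.Results.MP_e34a79_lc.SiblingsAge

open Set FirstOrder FirstOrder.Language.Structure CategoryTheory Pool.Agent.Sib

/-- The age of a structure `M`: the class of all finite structures that embed into `M`. -/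
def age (L : FirstOrder.Language.{0, 0}) (M : Type) [L.Structure M] :
    Set (Bundled.{0} L.Structure) :=
  {A | Finite A ∧ Nonempty (A ↪[L] M)}

/-- `Mod(𝔄)`: the countable structures whose age is exactly `𝔄`. -/
def ModAge (L : FirstOrder.Language.{0, 0}) (𝔄 : Set (Bundled.{0} L.Structure)) : Type 1 :=
  {N : Bundled.{0} L.Structure // Countable N ∧ age L N = 𝔄}

/-- Bi-embeddability on `Mod(𝔄)`: each of the two structures embeds into the other. -/
def sibling (L : FirstOrder.Language.{0, 0}) (𝔄 : Set (Bundled.{0} L.Structure)) :
    Setoid (ModAge L 𝔄) where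
  r N N' := Nonempty (N.1 ↪[L] N'.1) ∧ Nonempty (N'.1 ↪[L] N.1)
  iseqv :=
    { refl := fun N => ⟨⟨Language.Embedding.refl L N.1⟩, ⟨Language.Embedding.refl L N.1⟩⟩
      symm := fun h => ⟨h.2, h.1⟩
      trans := fun h h' => ⟨⟨h'.1.some.comp h.1.some⟩, ⟨h.2.some.comp h'.2.some⟩⟩ }

/-- A structure `M` is cellular: it is the disjoint union of a finite set (the complement of the
range of `c`) and of finitely many families of cells, the `j`-th cell of the `i`-th family being the
tuple `c ⟨i, j, 0⟩, …, c ⟨i, j, k i - 1⟩`, such that every permutation `σ` of the cells of one family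
is induced by an automorphism of `M` which fixes everything outside this family. -/
def Cellular (L : FirstOrder.Language.{0, 0}) (M : Type) [L.Structure M] : Prop :=
  ∃ (n : ℕ) (k : Fin n → ℕ) (c : (Σ i : Fin n, ℕ × Fin (k i)) → M),
    Function.Injective c ∧ (range c)ᶜ.Finite ∧
    ∀ (i : Fin n) (σ : Equiv.Perm ℕ), ∃ g : M ≃[L] M,
      (∀ (j : ℕ) (l : Fin (k i)), g (c ⟨i, j, l⟩) = c ⟨i, σ j, l⟩) ∧
      ∀ x, (∀ (j : ℕ) (l : Fin (k i)), x ≠ c ⟨i, j, l⟩) → g x = x

/-- `𝔄` is cellular: every countable structure whose age is contained in `𝔄` is cellular. -/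
def CellularAge (L : FirstOrder.Language.{0, 0}) (𝔄 : Set (Bundled.{0} L.Structure)) : Prop :=
  ∀ N : Bundled.{0} L.Structure, Countable N → age L N ⊆ 𝔄 → Cellular L N

variable {L : FirstOrder.Language.{0, 0}} {r : ℕ}

/-! ### Embeddings between subsets of the domain -/

section Transfer

variable {M N N' : Type} [L.Structure M] [L.Structure N] [L.Structure N']

/-- An embedding between the images gives an embedding of the structures. -/
theorem embedding_of_emb [L.IsRelational] [Nonempty N] (hr : 2 ≤ r)
    (har : ∀ s : Σ n, L.Relations n, s.1 ≤ r) (hD : Dom (colOf L r M)) {v : N → M} {v' : N' → M}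
    (hv : ∀ u : Fin r → N, colOf L r M (v ∘ u) = colOf L r N u)
    (hv' : ∀ u : Fin r → N', colOf L r M (v' ∘ u) = colOf L r N' u) {h : M → M}
    (hh : Emb (colOf L r M) (range v) (range v') h) : Nonempty (N ↪[L] N') := by
  have h1 : ∀ x : N, ∃ y : N', v' y = h (v x) := fun x => hh.1 _ (mem_range_self x)
  choose f hf using h1
  obtain ⟨g, -⟩ := exists_embedding (L := L) (r := r) hr har f (by
    intro u
    rw [← hv', ← hv, ← hh.2 (v ∘ u) (fun i => mem_range_self _)]
    congr 1
    funext i
    exact hf (u i))
  exact ⟨g⟩

/-- Conversely. -/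
theorem emb_of_embedding (hD : Dom (colOf L r M)) {v : N → M} {v' : N' → M}
    (hv : ∀ u : Fin r → N, colOf L r M (v ∘ u) = colOf L r N u)
    (hv' : ∀ u : Fin r → N', colOf L r M (v' ∘ u) = colOf L r N' u) (hvi : Function.Injective v)
    (g : N ↪[L] N') : ∃ h, Emb (colOf L r M) (range v) (range v') h := by
  classical
  obtain ⟨m₀⟩ := hD.ne
  let h : M → M := fun b => if hb : b ∈ range v then v' (g hb.choose) else m₀
  have hh : ∀ x, h (v x) = v' (g x) := by
    intro x
    have hb : v x ∈ range v := mem_range_self x
    simp only [h, dif_pos hb]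
    congr 2
    exact hvi hb.choose_spec
  refine ⟨h, ?_, ?_⟩
  · rintro _ ⟨x, rfl⟩
    rw [hh]
    exact mem_range_self _
  · intro u hu
    choose w hw using hu
    have e1 : u = v ∘ w := funext fun i => (hw i).symm
    have e2 : h ∘ u = v' ∘ (g ∘ w) := by
      rw [e1]
      funext i
      exact hh (w i)
    rw [e2, hv', e1, hv, colOf_comp]

theorem inj_of_col (hr : 2 ≤ r) {v : N → M}
    (hv : ∀ u : Fin r → N, colOf L r M (v ∘ u) = colOf L r N u) : Function.Injective v := by
  intro a b hab
  let u : Fin r → N := fun k => if (k : ℕ) = 0 then a else b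
  let w : Fin r → N := fun _ => b
  have h1 : v ∘ u = v ∘ w := by
    funext k
    simp only [Function.comp, u, w]
    split_ifs
    · exact hab
    · rfl
  have h2 : colOf L r N w = colOf L r N u := by rw [← hv, ← hv, h1]
  have h3 := colOf_eq h2 ⟨0, by omega⟩ ⟨1, by omega⟩ rfl
  simpa [u] using h3

/-- The image of a structure realising all finite tuples is full. -/
theorem full_of_rlz {v : N → M} (hv : ∀ u : Fin r → N, colOf L r M (v ∘ u) = colOf L r N u)
    (h : Rlz L r M N) : Full (colOf L r M) (range v) := by
  intro n t
  obtain ⟨t', ht'⟩ := h n t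
  refine ⟨v ∘ t', fun i => mem_range_self _, ?_⟩
  rw [← ht']
  funext f
  exact hv (t' ∘ f)

/-- From the internal notion to cellularity. -/
theorem cellular_of_cellSet [L.IsRelational] (hr : 2 ≤ r)
    (har : ∀ s : Σ n, L.Relations n, s.1 ≤ r) (hD : Dom (colOf L r M)) {v : N → M}
    (hv : ∀ u : Fin r → N, colOf L r M (v ∘ u) = colOf L r N u)
    (hc : CellSet (colOf L r M) (range v)) : Cellular L N := by
  classical
  have hvi := inj_of_col hr hv
  obtain ⟨K, n, k, c, hK, hci, hKc, hN, hg⟩ := hc
  have h1 : ∀ s, ∃ x : N, v x = c s := by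
    intro s
    have : c s ∈ range v := by rw [hN]; exact Or.inr (mem_range_self s)
    exact this
  choose c' hc' using h1
  have hci' : Function.Injective c' := by
    intro s s' h
    apply hci
    rw [← hc', ← hc', h]
  have hcompl : ∀ x, x ∉ range c' → v x ∈ K := by
    intro x hx
    have : v x ∈ K ∪ range c := by rw [← hN]; exact mem_range_self x
    rcases this with h | ⟨s, hs⟩
    · exact h
    · exact absurd ⟨s, hvi (by rw [hc', hs])⟩ hx
  refine ⟨n, k, c', hci', ?_, ?_⟩
  · have : (range c')ᶜ ⊆ v ⁻¹' K := fun x hx => hcompl x hx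
    exact (hK.preimage hvi.injOn).subset this
  · intro i σ
    rcases isEmpty_or_nonempty N with hE | hne
    · exact ⟨Language.Equiv.refl L N, fun j l => (hE.false (c' ⟨i, j, l⟩)).elim, fun x _ => rfl⟩
    -- the map on `N` for a permutation
    have key : ∀ τ : Equiv.Perm ℕ, ∃ f : N → N,
        (∀ i' j l, f (c' ⟨i', j, l⟩) = if i' = i then c' ⟨i', τ j, l⟩ else c' ⟨i', j, l⟩) ∧
        (∀ x, x ∉ range c' → f x = x) ∧
        ∀ u : Fin r → N, colOf L r N (f ∘ u) = colOf L r N u := by
      intro τ
      let σ' : Fin n → Equiv.Perm ℕ := fun i' => if i' = i then τ else 1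
      let f : N → N := fun x => if hx : ∃ s, c' s = x then
        c' ⟨hx.choose.1, σ' hx.choose.1 hx.choose.2.1, hx.choose.2.2⟩ else x
      have hf1 : ∀ i' j l, f (c' ⟨i', j, l⟩) = c' ⟨i', σ' i' j, l⟩ := by
        intro i' j l
        have hx : ∃ s, c' s = c' ⟨i', j, l⟩ := ⟨_, rfl⟩
        simp only [f, dif_pos hx]
        have := hci' hx.choose_spec
        rw [this]
      have hf2 : ∀ x, x ∉ range c' → f x = x := by
        intro x hx
        have hx' : ¬ ∃ s, c' s = x := hx
        simp only [f, dif_neg hx']
      refine ⟨f, ?_, hf2, ?_⟩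
      · intro i' j l
        rw [hf1]
        by_cases h : i' = i
        · simp [σ', h]
        · simp [σ', h]
      · intro u
        let g : M → M := fun b => if hb : b ∈ range v then v (f hb.choose) else b
        have hgv : ∀ x, g (v x) = v (f x) := by
          intro x
          have hb : v x ∈ range v := mem_range_self x
          simp only [g, dif_pos hb]
          congr 2
          exact hvi hb.choose_spec
        have hPE := hg σ' g (by
          intro b hb
          have hbr : b ∈ range v := by rw [hN]; exact Or.inl hb
          obtain ⟨x, rfl⟩ := hbr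
          rw [hgv, hf2 x]
          rintro ⟨s, rfl⟩
          rw [hc'] at hb
          exact (disjoint_left.1 hKc hb (mem_range_self s))) (by
          intro i' j l
          rw [← hc', hgv, hf1, hc'])
        rw [← hv, ← hv, ← hPE (v ∘ u) (fun a => mem_range_self _)]
        congr 1
        funext a
        exact (hgv (u a)).symm
    obtain ⟨f, hf1, hf2, hf3⟩ := key σ
    obtain ⟨f', hf1', hf2', -⟩ := key σ.symm
    obtain ⟨g, hgf⟩ := exists_embedding (L := L) (r := r) hr har f hf3
    have hinv1 : ∀ x, f' (f x) = x := by
      intro x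
      by_cases hx : x ∈ range c'
      · obtain ⟨⟨i', j, l⟩, rfl⟩ := hx
        rw [hf1]
        by_cases h : i' = i
        · rw [if_pos h, hf1', if_pos h]; simp
        · rw [if_neg h, hf1', if_neg h]
      · rw [hf2 x hx, hf2' x hx]
    have hinv2 : ∀ x, f (f' x) = x := by
      intro x
      by_cases hx : x ∈ range c'
      · obtain ⟨⟨i', j, l⟩, rfl⟩ := hx
        rw [hf1']
        by_cases h : i' = i
        · rw [if_pos h, hf1, if_pos h]; simp
        · rw [if_neg h, hf1, if_neg h]
      · rw [hf2' x hx, hf2 x hx]
    refine ⟨⟨⟨f, f', hinv1, hinv2⟩, fun {m} F x => isEmptyElim F, fun {m} R x => ?_⟩, ?_, ?_⟩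
    · have := g.map_rel R x
      rw [hgf] at this
      exact this
    · intro j l
      change f (c' ⟨i, j, l⟩) = _
      rw [hf1, if_pos rfl]
    · intro x hx
      change f x = x
      by_cases hxr : x ∈ range c'
      · obtain ⟨⟨i', j, l⟩, rfl⟩ := hxr
        rw [hf1]
        by_cases h : i' = i
        · subst h
          exact absurd rfl (hx j l)
        · rw [if_neg h]
      · exact hf2 x hxr

/-- From cellularity to the internal notion. -/
theorem cellSet_of_cellular (hr : 2 ≤ r) {v : N → M}
    (hv : ∀ u : Fin r → N, colOf L r M (v ∘ u) = colOf L r N u)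
    (hc : Cellular L N) : CellSet (colOf L r M) (range v) := by
  classical
  have hvi := inj_of_col hr hv
  obtain ⟨n, k, c, hci, hfin, haut⟩ := hc
  refine ⟨v '' (range c)ᶜ, n, k, v ∘ c, hfin.image v, hvi.comp hci, ?_, ?_, ?_⟩
  · rw [range_comp]
    exact (disjoint_image_iff hvi).2 disjoint_compl_left
  · rw [range_comp, ← image_union, compl_union_self, image_univ]
  · intro σ g hg1 hg2
    choose a ha1 ha2 using fun i => haut i (σ i)
    -- the composition of the automorphisms
    have key : ∀ s : Finset (Fin n), ∃ G : N ≃[L] N,
        (∀ i j l, G (c ⟨i, j, l⟩) = if i ∈ s then c ⟨i, σ i j, l⟩ else c ⟨i, j, l⟩) ∧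
        ∀ x, x ∉ range c → G x = x := by
      intro s
      induction s using Finset.induction_on with
      | empty => exact ⟨Language.Equiv.refl L N, fun i j l => by simp, fun x _ => rfl⟩
      | insert i₀ s hi₀ ih =>
        obtain ⟨G, hG1, hG2⟩ := ih
        refine ⟨(a i₀).comp G, ?_, ?_⟩
        · intro i j l
          rw [Language.Equiv.comp_apply, hG1]
          by_cases h : i = i₀
          · subst h
            rw [if_neg hi₀, ha1]
            simp
          · have hfix : ∀ j, a i₀ (c ⟨i, j, l⟩) = c ⟨i, j, l⟩ := by
              intro j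
              apply ha2
              intro j' l' heq
              have := hci heq
              exact h (congrArg Sigma.fst this)
            by_cases hs : i ∈ s
            · rw [if_pos hs, if_pos (Finset.mem_insert_of_mem hs), hfix]
            · rw [if_neg hs, hfix, if_neg]
              rw [Finset.mem_insert]
              push Not
              exact ⟨h, hs⟩
        · intro x hx
          rw [Language.Equiv.comp_apply, hG2 x hx]
          apply ha2
          rintro j l rfl
          exact hx (mem_range_self _)
    obtain ⟨G, hG1, hG2⟩ := key Finset.univ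
    have hgG : ∀ x, g (v x) = v (G x) := by
      intro x
      by_cases hx : x ∈ range c
      · obtain ⟨⟨i, j, l⟩, rfl⟩ := hx
        rw [hG1, if_pos (Finset.mem_univ i)]
        exact hg2 i j l
      · rw [hG2 x hx]
        exact hg1 _ (mem_image_of_mem v hx)
    intro u hu
    choose w hw using hu
    have e1 : u = v ∘ w := funext fun i => (hw i).symm
    have e2 : g ∘ u = v ∘ (G ∘ w) := by
      rw [e1]
      funext i
      exact hgG (w i)
    rw [e2, hv, e1, hv]
    exact colOf_comp G.toEmbedding w

end Transfer

section Subsets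

attribute [local instance] indStr

/-- A structure whose age is contained in the age of the empty structure is empty. -/
theorem isEmpty_of_age [L.IsRelational] (U : Type) [L.Structure U] [IsEmpty U]
    (N : Bundled.{0} L.Structure) (hN : age L N ⊆ age L U) : IsEmpty N := by
  by_contra hne
  rw [not_isEmpty_iff] at hne
  obtain ⟨x⟩ := hne
  have h1 : (Bundled.of ({x} : Set N) : Bundled L.Structure) ∈ age L N :=
    ⟨(finite_singleton x).to_subtype, ⟨indIncl {x}⟩⟩
  obtain ⟨-, ⟨f⟩⟩ := hN h1
  exact (inferInstance : IsEmpty U).false (f ⟨x, rfl⟩)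

/-- A full countable subset of the domain is a structure with the given age. -/
theorem exists_mod [L.IsRelational] {M : Type} [L.Structure M] (hr : 2 ≤ r)
    (har : ∀ s : Σ n, L.Relations n, s.1 ≤ r) (U : Bundled.{0} L.Structure) [Nonempty U]
    (hMU : Rlz L r M U) (hUM : Rlz L r U M) {S : Set M} (hS : S.Countable)
    (hSF : Full (colOf L r M) S) :
    ∃ (P : ModAge L (age L U)) (w : P.1 → M), range w = S ∧
      ∀ u : Fin r → P.1, colOf L r M (w ∘ u) = colOf L r P.1 u := by
  have hSc : Countable S := hS.to_subtype
  have hrlz1 : Rlz L r S U := by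
    intro m t
    obtain ⟨t', ht'⟩ := hMU m (fun i => (t i : M))
    refine ⟨t', ht'.trans ?_⟩
    funext f
    exact (colOf_val (L := L) S (t ∘ f)).symm
  have hrlz2 : Rlz L r U S := by
    intro m t
    obtain ⟨t', ht'⟩ := hUM m t
    obtain ⟨t'', h1, h2⟩ := hSF m t'
    refine ⟨fun i => ⟨t'' i, h1 i⟩, ?_⟩
    rw [← ht', ← h2]
    funext f
    exact colOf_val (L := L) S _
  have hSne : Nonempty S := by
    obtain ⟨t', -⟩ := hrlz2 1 (fun _ => Classical.arbitrary U)
    exact ⟨t' 0⟩
  have hage : age L S = age L U :=
    Subset.antisymm (ageOf_subset_of_rlz hr har hrlz1) (ageOf_subset_of_rlz hr har hrlz2)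
  exact ⟨⟨Bundled.of S, hSc, hage⟩, Subtype.val, Subtype.range_coe,
    fun u => (colOf_val (L := L) S u).symm⟩

end Subsets

theorem Cellular.of_isEmpty (N : Type) [L.Structure N] [IsEmpty N] : Cellular L N :=
  ⟨0, fun i => i.elim0, fun s => s.1.elim0, fun s => s.1.elim0,
    Set.toFinite _, fun i => i.elim0⟩

/-- **Main theorem.**  Let `𝔄` be an age in a finite relational language `L`, i.e. the class of all
finite structures embedding into some countable `L`-structure.  The following are equivalent:
(i) there are only finitely many bi-embeddability classes of countable structures with age `𝔄`;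
(ii) there is exactly one such class; (iii) `𝔄` is cellular. -/
theorem result (L : FirstOrder.Language.{0, 0}) [L.IsRelational]
    [Finite (Σ n, L.Relations n)] (𝔄 : Set (Bundled.{0} L.Structure))
    (h𝔄 : ∃ U : Bundled.{0} L.Structure, Countable U ∧ age L U = 𝔄) :
    List.TFAE [
      Finite (Quotient (sibling L 𝔄)),
      Nat.card (Quotient (sibling L 𝔄)) = 1,
      CellularAge L 𝔄] := by
  classical
  obtain ⟨U, hUc, rfl⟩ := h𝔄
  -- a bound for the arities
  obtain ⟨r, hr, har⟩ : ∃ r : ℕ, 2 ≤ r ∧ ∀ s : Σ n, L.Relations n, s.1 ≤ r := by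
    obtain ⟨b, hb⟩ := (Set.finite_range (fun s : Σ n, L.Relations n => s.1)).bddAbove
    exact ⟨max 2 b, le_max_left _ _, fun s => (hb (mem_range_self s)).trans (le_max_right _ _)⟩
  rcases isEmpty_or_nonempty U with hUe | hUn
  · -- the empty structure
    have hemp : ∀ N : Bundled.{0} L.Structure, age L N ⊆ age L U → IsEmpty N :=
      fun N hN => isEmpty_of_age U N hN
    have hcell : CellularAge L (age L U) := by
      intro N _ hN
      have := hemp N hN
      exact Cellular.of_isEmpty N
    have hone : Nat.card (Quotient (sibling L (age L U))) = 1 := by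
      rw [Nat.card_eq_one_iff_unique]
      constructor
      · constructor
        intro q q'
        induction q using Quotient.inductionOn with
        | _ N =>
        induction q' using Quotient.inductionOn with
        | _ N' =>
        apply Quotient.sound
        have hfin : ∀ P : ModAge L (age L U), P.1 ∈ age L P.1 := by
          intro P
          have := hemp P.1 P.2.2.le
          exact ⟨Finite.of_subsingleton, ⟨Language.Embedding.refl L P.1⟩⟩
        refine ⟨?_, ?_⟩
        · exact ((Set.ext_iff.1 (N.2.2.trans N'.2.2.symm) N.1).1 (hfin N)).2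
        · exact ((Set.ext_iff.1 (N'.2.2.trans N.2.2.symm) N'.1).1 (hfin N')).2
      · exact ⟨Quotient.mk _ ⟨U, hUc, rfl⟩⟩
    tfae_have 1 → 3 := fun _ => hcell
    tfae_have 3 → 2 := fun _ => hone
    tfae_have 2 → 1 := fun h => Nat.finite_of_card_ne_zero (by rw [h]; norm_num)
    tfae_finish
  · obtain ⟨M, strM, hD, hMU, hUM⟩ := exists_domain (L := L) hr U
    -- every countable structure with smaller age is an image in the domain
    have hmap : ∀ N : Bundled.{0} L.Structure, Countable N → age L N ⊆ age L U →
        ∃ v : N → M, ∀ u : Fin r → N, colOf L r M (v ∘ u) = colOf L r N u := by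
      intro N _ hN
      exact exists_map hD ((rlz_of_ageOf_subset hN).trans hUM)
    have hnonempty : ∀ N : Bundled.{0} L.Structure, age L U ⊆ age L N → Nonempty N := by
      intro N hN
      have h1 : Rlz L r U N := rlz_of_ageOf_subset hN
      obtain ⟨t', -⟩ := h1 1 (fun _ => Classical.arbitrary U)
      exact ⟨t' 0⟩
    have hfull : ∀ N : Bundled.{0} L.Structure, age L U ⊆ age L N → ∀ v : N → M,
        (∀ u : Fin r → N, colOf L r M (v ∘ u) = colOf L r N u) →
        Full (colOf L r M) (range v) := by
      intro N hN v hv
      exact full_of_rlz hv (hMU.trans (rlz_of_ageOf_subset hN))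
    tfae_have 1 → 3 := by
      intro hfin
      -- finitely many classes of full countable subsets
      obtain ⟨n, ⟨e⟩⟩ := Finite.exists_equiv_fin (Quotient (sibling L (age L U)))
      have hFC : FinClasses (colOf L r M) := by
        choose v hv using fun q : Quotient (sibling L (age L U)) =>
          hmap q.out.1 q.out.2.1 q.out.2.2.le
        refine ⟨n, fun i => range (v (e.symm i)), fun i => ?_, ?_⟩
        · have := (e.symm i).out.2.1
          exact ⟨countable_range _, hfull _ (e.symm i).out.2.2.ge _ (hv _)⟩
        · intro S hS hSF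
          obtain ⟨P, w, hw, hwc⟩ := exists_mod hr har U hMU hUM hS hSF
          let q : Quotient (sibling L (age L U)) := Quotient.mk _ P
          have hq : (sibling L (age L U)).r q.out P := Quotient.exact (Quotient.out_eq q)
          refine ⟨e q, ?_, ?_⟩
          · have h3 := emb_of_embedding hD hwc (hv q) (inj_of_col hr hwc) hq.2.some
            rw [hw] at h3
            beta_reduce
            rw [e.symm_apply_apply]
            exact h3
          · have h3 := emb_of_embedding hD (hv q) hwc (inj_of_col hr (hv q)) hq.1.some
            rw [hw] at h3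
            beta_reduce
            rw [e.symm_apply_apply]
            exact h3
      intro N hNc hN
      obtain ⟨v, hv⟩ := hmap N hNc hN
      exact cellular_of_cellSet hr har hD hv (main hD hFC _ (countable_range v))
    tfae_have 3 → 2 := by
      intro hcell
      rw [Nat.card_eq_one_iff_unique]
      constructor
      · constructor
        intro q q'
        induction q using Quotient.inductionOn with
        | _ N =>
        induction q' using Quotient.inductionOn with
        | _ N' =>
        apply Quotient.sound
        have key : ∀ P P' : ModAge L (age L U), Nonempty (P.1 ↪[L] P'.1) := by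
          intro P P'
          have := P.2.1
          obtain ⟨v, hv⟩ := hmap P.1 P.2.1 P.2.2.le
          obtain ⟨v', hv'⟩ := hmap P'.1 P'.2.1 P'.2.2.le
          have hcs := cellSet_of_cellular hr hv' (hcell P'.1 P'.2.1 P'.2.2.le)
          obtain ⟨h, hh⟩ := cell_universal hD hcs (hfull P'.1 P'.2.2.ge v' hv')
            (countable_range v)
          have := hnonempty P.1 P.2.2.ge
          exact embedding_of_emb hr har hD hv hv' hh
        exact ⟨key N N', key N' N⟩
      · exact ⟨Quotient.mk _ ⟨U, hUc, rfl⟩⟩
    tfae_have 2 → 1 := fun h => Nat.finite_of_card_ne_zero (by rw [h]; norm_num)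
    tfae_finish

end Pool.Agent.Results.MP_e34a79_lc.SiblingsAge
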